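import Mathlib
import Pool.Agent.H71.AAE.Defs
import Pool.Agent.H71.AAE.M2
import Pool.Agent.H85.AAE2.Defs

/-!
# Project AAE2, module AL3: Lemma C

Elements of `c ^ t (I / I²)` killed by the derivative come from `(I ∩ R) T + (I ∩ R)`.
-/

set_option autoImplicit false

open Polynomial

namespace Pool.Agent.H85.AAE2

open Pool.Agent.H71.AAE

universe u

/-- pseudo-division by `a X - b` -/
theorem pseudo {R : Type u} [CommRing R] (a b : R) : ∀ (n : ℕ) (h : R[X]), h.natDegree ≤ n →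
    ∃ (Q : R[X]) (ρ : R), C a ^ n * h = Q * (C a * X - C b) + C ρ := by
  intro n
  induction n with
  | zero =>
    intro h hh
    refine ⟨0, h.coeff 0, ?_⟩
    rw [pow_zero, one_mul, zero_mul, zero_add]
    exact eq_C_of_natDegree_le_zero hh
  | succ n ih =>
    intro h hh
    obtain ⟨Q, ρ, e⟩ := ih h.divX (by
      rw [natDegree_divX_eq_natDegree_tsub_one]
      omega)
    refine ⟨C a * X * Q + C ρ, ρ * b + a ^ (n + 1) * h.coeff 0, ?_⟩
    have e1 : h = X * h.divX + C (h.coeff 0) := by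
      rw [mul_comm]
      exact (divX_mul_X_add h).symm
    rw [C_add, C_mul, C_mul, C_pow]
    calc C a ^ (n + 1) * h = C a ^ (n + 1) * (X * h.divX + C (h.coeff 0)) := by rw [← e1]
      _ = C a * X * (C a ^ n * h.divX) + C a ^ (n + 1) * C (h.coeff 0) := by ring
      _ = C a * X * (Q * (C a * X - C b) + C ρ) + C a ^ (n + 1) * C (h.coeff 0) := by rw [e]
      _ = _ := by ring

section alg

variable {k : Type u} [Field k] {N m : ℕ}
  (φ : (MvPolynomial (Fin N) k)[X] →ₐ[k] MvPolynomial (Fin m) k)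
  {s p : MvPolynomial (Fin N) k}

/-- the elements of the kernel killed by the derivative -/
noncomputable def kerD : Ideal (MvPolynomial (Fin N) k)[X] where
  carrier := {h | φ h = 0 ∧ φ (derivative h) = 0}
  add_mem' := by
    rintro a b ⟨ha, ha'⟩ ⟨hb, hb'⟩
    exact ⟨by rw [map_add, ha, hb, add_zero], by rw [derivative_add, map_add, ha', hb', add_zero]⟩
  zero_mem' := by simp
  smul_mem' := by
    rintro x h ⟨hh, hh'⟩
    refine ⟨by rw [smul_eq_mul, map_mul, hh, mul_zero], ?_⟩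
    rw [smul_eq_mul, derivative_mul, map_add, map_mul, map_mul, hh, hh', mul_zero, mul_zero,
      add_zero]

/-- the elements congruent to some `ν T + ν'` modulo `I²` -/
def NB (hg : φ X ^ 2 = φ (C s) * φ X - φ (C p))
    (hS : ∀ b, ∃ α β : MvPolynomial (Fin N) k, b = φ (C α) + φ (C β) * φ X) :
    Ideal (MvPolynomial (Fin N) k)[X] where
  carrier := {h | ∃ ν ν' : MvPolynomial (Fin N) k, φ (C ν) = 0 ∧ φ (C ν') = 0 ∧
      h - (C ν * X + C ν') ∈ (RingHom.ker φ) ^ 2}
  add_mem' := by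
    rintro a b ⟨ν, ν', h1, h2, h3⟩ ⟨μ, μ', h4, h5, h6⟩
    refine ⟨ν + μ, ν' + μ', ?_, ?_, ?_⟩
    · rw [C_add, map_add, h1, h4, add_zero]
    · rw [C_add, map_add, h2, h5, add_zero]
    · have := Ideal.add_mem _ h3 h6
      have e : a + b - (C (ν + μ) * X + C (ν' + μ')) =
          a - (C ν * X + C ν') + (b - (C μ * X + C μ')) := by
        rw [C_add, C_add]
        ring
      rw [e]
      exact this
  zero_mem' := ⟨0, 0, by simp, by simp, by simp⟩
  smul_mem' := by
    rintro x h ⟨ν, ν', h1, h2, h3⟩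
    obtain ⟨α, β, hαβ⟩ := hS (φ x)
    refine ⟨α * ν + β * ν * s + β * ν', α * ν' - β * ν * p, ?_, ?_, ?_⟩
    · simp only [map_add, map_mul, h1, h2, mul_zero, zero_mul, add_zero]
    · simp only [map_sub, map_mul, h1, h2, mul_zero, zero_mul, sub_zero]
    · have e : x • h - (C (α * ν + β * ν * s + β * ν') * X + C (α * ν' - β * ν * p)) =
          x * (h - (C ν * X + C ν')) + (x - (C α + C β * X)) * (C ν * X + C ν') +
            C (β * ν) * aa s p := by
        unfold aa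
        simp only [C_add, C_sub, C_mul, smul_eq_mul]
        ring
      rw [e]
      refine Ideal.add_mem _ (Ideal.add_mem _ (Ideal.mul_mem_left _ _ h3) ?_) ?_
      · rw [pow_two]
        refine Ideal.mul_mem_mul (RingHom.mem_ker.2 ?_) (RingHom.mem_ker.2 ?_)
        · rw [map_sub, map_add, map_mul, hαβ, sub_self]
        · rw [map_add, map_mul, h1, h2, zero_mul, add_zero]
      · rw [pow_two]
        refine Ideal.mul_mem_mul (RingHom.mem_ker.2 ?_) (RingHom.mem_ker.2 (phi_aa hg))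
        rw [C_mul, map_mul, h1, mul_zero]

theorem sq_le_kerD : (RingHom.ker φ) ^ 2 ≤ kerD φ := fun _ hh =>
  ⟨RingHom.mem_ker.1 (Ideal.pow_le_self two_ne_zero hh), derivative_sq hh⟩

theorem sq_le_NB (hg : φ X ^ 2 = φ (C s) * φ X - φ (C p))
    (hS : ∀ b, ∃ α β : MvPolynomial (Fin N) k, b = φ (C α) + φ (C β) * φ X) :
    (RingHom.ker φ) ^ 2 ≤ NB φ hg hS := fun h hh =>
  ⟨0, 0, by simp, by simp, by simpa using hh⟩

/-- powers of elements of the conductor move `kerD` into `NB` -/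
theorem pow_mul_mem (hg : φ X ^ 2 = φ (C s) * φ X - φ (C p))
    (hS : ∀ b, ∃ α β : MvPolynomial (Fin N) k, b = φ (C α) + φ (C β) * φ X)
    {f h : (MvPolynomial (Fin N) k)[X]} (hf : φ f ∈ cond φ) (hh : h ∈ kerD φ) {n : ℕ}
    (hn : h.natDegree < n) : f ^ n * h ∈ NB φ hg hS := by
  obtain ⟨a, ha⟩ := hf 1
  obtain ⟨b, hb⟩ := hf (φ X)
  rw [mul_one] at ha
  -- replace `f` by `C a`
  have e1 : f ^ n * h - C a ^ n * h ∈ (RingHom.ker φ) ^ 2 := by
    rw [← sub_mul, pow_two]
    refine Ideal.mul_mem_mul (RingHom.mem_ker.2 ?_) (RingHom.mem_ker.2 hh.1)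
    rw [map_sub, map_pow, map_pow, ha, sub_self]
  suffices h2 : C a ^ n * h ∈ NB φ hg hS by
    have := Ideal.add_mem _ (sq_le_NB φ hg hS e1) h2
    rwa [sub_add_cancel] at this
  by_cases hf0 : φ f = 0
  · apply sq_le_NB φ hg hS
    rw [pow_two]
    refine Ideal.mul_mem_mul (RingHom.mem_ker.2 ?_) (RingHom.mem_ker.2 hh.1)
    rw [map_pow, ha, hf0, zero_pow (by omega)]
  obtain ⟨Q, ρ, e⟩ := pseudo a b n h hn.le
  have hl : φ (C a * X - C b) = 0 := by
    rw [map_sub, map_mul, ha, hb, sub_self]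
  have hρ : φ (C ρ) = 0 := by
    have := congrArg φ e
    rw [map_mul, hh.1, mul_zero, map_add, map_mul, hl, mul_zero, zero_add] at this
    exact this.symm
  have hQ : φ Q = 0 := by
    have := congrArg (fun x => φ (derivative x)) e
    simp only [derivative_mul, derivative_sub, derivative_C, derivative_X,
      map_add, map_mul, hh.1, hh.2, hl, mul_zero, zero_add, zero_mul, mul_one, sub_zero,
      add_zero, ha] at this
    exact (mul_eq_zero.1 this.symm).resolve_right hf0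
  refine ⟨0, ρ, by simp, hρ, ?_⟩
  rw [e, C_0, zero_mul, zero_add, add_sub_cancel_right, pow_two]
  exact Ideal.mul_mem_mul (RingHom.mem_ker.2 hQ) (RingHom.mem_ker.2 hl)

/-- Lemma C: `c^t (I/I²) ∩ ker D` consists of classes of `ν T + ν'`, `ν, ν' ∈ I ∩ R` -/
theorem lemma_C (hφ : Function.Surjective φ) (hg : φ X ^ 2 = φ (C s) * φ X - φ (C p))
    (hS : ∀ b, ∃ α β : MvPolynomial (Fin N) k, b = φ (C α) + φ (C β) * φ X) :
    ∃ t : ℕ, ∀ h : (MvPolynomial (Fin N) k)[X],
    h ∈ (cond φ ^ t).comap φ * RingHom.ker φ ⊔ (RingHom.ker φ) ^ 2 →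
    φ (derivative h) = 0 →
    ∃ ν ν' : MvPolynomial (Fin N) k, φ (C ν) = 0 ∧ φ (C ν') = 0 ∧
      h - (C ν * X + C ν') ∈ (RingHom.ker φ) ^ 2 := by
  classical
  -- the colon ideal
  obtain ⟨S, hSK⟩ := (isNoetherianRing_iff_ideal_fg _).1 inferInstance (kerD φ)
  obtain ⟨n, hn⟩ : ∃ n : ℕ, ∀ h ∈ S, h.natDegree < n :=
    ⟨S.sup natDegree + 1, fun h hh => Nat.lt_succ_of_le (Finset.le_sup (f := natDegree) hh)⟩
  let c' : Ideal (MvPolynomial (Fin N) k)[X] := (cond φ).comap φ
  let J : Ideal (MvPolynomial (Fin N) k)[X] := (NB φ hg hS).colon (kerD φ)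
  have h1 : c' ≤ J.radical := by
    intro f hf
    refine ⟨n, ?_⟩
    rw [Submodule.mem_colon]
    intro h hh
    change h ∈ kerD φ at hh
    rw [← hSK] at hh
    change f ^ n • h ∈ NB φ hg hS
    induction hh using Submodule.span_induction with
    | mem x hx =>
      refine pow_mul_mem φ hg hS hf ?_ (hn x hx)
      rw [← hSK]
      exact Ideal.subset_span hx
    | zero => rw [smul_zero]; exact Ideal.zero_mem _
    | add x y _ _ hx hy => rw [smul_add]; exact Ideal.add_mem _ hx hy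
    | smul a x _ hx =>
      rw [smul_comm]
      exact Submodule.smul_mem _ _ hx
  obtain ⟨n1, hn1⟩ := Ideal.exists_pow_le_of_le_radical_of_fg h1
    ((isNoetherianRing_iff_ideal_fg _).1 inferInstance c')
  have h2 : c' ^ n1 * kerD φ ≤ NB φ hg hS := by
    rw [Ideal.mul_le]
    intro x hx h hh
    exact Submodule.mem_colon.1 (hn1 hx) h hh
  -- Artin-Rees
  obtain ⟨n2, hn2⟩ := Ideal.exists_pow_inf_eq_pow_smul c' (kerD φ)
  refine ⟨n2 + n1, fun h hh hd => ?_⟩
  change h ∈ NB φ hg hS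
  obtain ⟨x, hx, y, hy, rfl⟩ := Submodule.mem_sup.1 hh
  refine Ideal.add_mem _ ?_ (sq_le_NB φ hg hS hy)
  -- split off `I²`
  have h3 : (cond φ ^ (n2 + n1)).comap φ * RingHom.ker φ ≤
      c' ^ (n2 + n1) ⊔ (RingHom.ker φ) ^ 2 := by
    rw [Ideal.mul_le]
    intro a ha b hb
    have h4 : (cond φ ^ (n2 + n1)).comap φ ≤ c' ^ (n2 + n1) ⊔ RingHom.ker φ := by
      intro a ha
      have h5 : cond φ = c'.map φ := (Ideal.map_comap_of_surjective φ hφ _).symm
      have h6 : φ a ∈ (c' ^ (n2 + n1)).map φ := by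
        rw [Ideal.map_pow, ← h5]
        exact ha
      obtain ⟨z, hz, hza⟩ := (Ideal.mem_map_iff_of_surjective φ hφ).1 h6
      refine Submodule.mem_sup.2 ⟨z, hz, a - z, RingHom.mem_ker.2 ?_, by ring⟩
      rw [map_sub, hza, sub_self]
    obtain ⟨a1, ha1, a2, ha2, rfl⟩ := Submodule.mem_sup.1 (h4 ha)
    rw [add_mul]
    refine Submodule.add_mem_sup (Ideal.mul_mem_right _ _ ha1) ?_
    rw [pow_two]
    exact Ideal.mul_mem_mul ha2 hb
  obtain ⟨z, hz, y', hy', rfl⟩ := Submodule.mem_sup.1 (h3 hx)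
  refine Ideal.add_mem _ ?_ (sq_le_NB φ hg hS hy')
  have h8 : (cond φ ^ (n2 + n1)).comap φ * RingHom.ker φ ≤ RingHom.ker φ := by
    rw [Ideal.mul_le]
    intro a _ b hb
    exact Ideal.mul_mem_left _ a hb
  have hxk : φ (z + y') = 0 := RingHom.mem_ker.1 (h8 hx)
  have hzK : z ∈ kerD φ := by
    have e1 := (sq_le_kerD φ hy').1
    have e2 := (sq_le_kerD φ hy').2
    have e3 := (sq_le_kerD φ hy).2
    refine ⟨?_, ?_⟩
    · rw [map_add, e1, add_zero] at hxk
      exact hxk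
    · rw [derivative_add, derivative_add, map_add, map_add, e2, e3, add_zero, add_zero] at hd
      exact hd
  have h7 : z ∈ c' ^ (n2 + n1) • (⊤ : Ideal (MvPolynomial (Fin N) k)[X]) ⊓ kerD φ := by
    refine ⟨?_, hzK⟩
    rw [smul_eq_mul, Ideal.mul_top]
    exact hz
  rw [hn2 _ (Nat.le_add_right _ _), Nat.add_sub_cancel_left] at h7
  refine h2 ?_
  exact Submodule.smul_mono (le_refl _) inf_le_right h7

end alg

end Pool.Agent.H85.AAE2

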